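import Mathlib
import Pool.Agent.Run7.h168.Mult.Gam

/-!
# Euler's constant and the numbers `∫ e^(-s) / (x + s) ds` at several points: joint digits

`S(X) = s_1 X + ⋯ + s_L X^L`, where the `s_i` are the digits of a real number `y` in base `b` after
at most `K` of them have been changed.  The `K`-error algebraic complexity `N_b(y) = N_b(y; r, K, L)`
is the least `k` such that `X^(L+1)` divides `P(X, S(X))` for some nonzero polynomial `P(X, Y)` of
degree at most `r` in `Y` and at most `k` in `X` and some such choice of `S`; for `r = 1` this is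
essentially the linear complexity.

For a finite family of real numbers `y_i`, bases `b_i`, numbers of errors `K_i`, lengths `L_i` and
`M ≤ L_i log b_i` call `y_i` low if `A^(∑ K_j + 1) (N_(b_i)(y_i; r, K_i, L_i) + 1) log b_i < M`. The
following holds for every finite family of the kind described and every `r` with a suitable constant
`A`, for all choices of the `b_i, K_i, L_i` and of `M` (in particular for all numbers in the same
base, and at every scale).

Let `δ(x) = ∫_0^∞ e^(-s) / (x + s) ds` (`δ(1)` is the constant of Gompertz) and, for `l ≥ 1`,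
`G_l(x) = ∫_0^∞ log(1 + s/x)^l e^(-s) ds`, so that `G_1 = δ`.

(1) Let `x_1, …, x_k` be distinct positive rational numbers. If `∏ x_i^(n_i) = 1` for integers `n_i`,
not all `0`, then not all of the numbers `γ` and `δ(x_i)`, `n_i ≠ 0`, are low; if moreover `∑ n_i = 0`
then not all of the numbers `δ(x_i)`, `n_i ≠ 0`, are low. So if `γ` is low, the points `x_i` with low
`δ(x_i)` are multiplicatively independent.

(2) At most `1 + π(n)` of the `n + 1` numbers `γ, δ(1), δ(2), …, δ(n)` are low, where `π(n)` is the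
number of primes up to `n`.

(3) For rational `x > 0`, `ρ > 0`, `ρ ≠ 1`, at most `l + 1` of the numbers `G_l(x ρ^k)`, `k` in a finite
set of integers, are low; for instance at most two of `δ(1), δ(2), δ(4), …, δ(2^n)`.

Proof.  `∫ log(x/t)^l e^(-t) dt = l! E_l(x) + (-1)^l e^(-x) G_l(x)` with the E-function
`E_l(x) = ∑ (-1)^(m-1) x^m / (m! m^l)`; the left hand side is a polynomial of degree `l` in `log x`,
for `l = 1` it is `γ + log x`. The logarithms and the other coefficients are eliminated; the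
remaining linear relation makes the tuple of the numbers `e^(-1/q)`, `E_l(x_i)` algebraically
dependent over the field of the numbers `G_l(x_i)` (and `γ`), although it has a measure of algebraic
independence (starting files, quantitative Siegel-Shidlovskii theorem). The several numbers are
eliminated in `Pool/Agent/Run7/h168/Mult/`.
-/

set_option autoImplicit false

namespace Pool.Agent.Results.MP_e48a95_nt.DigitsAtSeveralPoints

open Finset Polynomial

/-- the `i`-th digit of `x` after the point in base `b` -/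
noncomputable def digit (b : ℕ) (x : ℝ) (i : ℕ) : ℤ := ⌊x * (b : ℝ) ^ i⌋ % (b : ℤ)

/-- the polynomial `s_1 X + s_2 X^2 + ⋯ + s_L X^L` -/
noncomputable def seqPoly (s : ℕ → ℤ) (L : ℕ) : ℚ[X] := ∑ l ∈ Icc 1 L, C (s l : ℚ) * X ^ l

/-- `s` is a sequence of base `b` digits, and among the places `1, …, L` at most `K` are such that
`s_l` is not the `l`-th digit of `x` -/
def Near (b : ℕ) (x : ℝ) (K L : ℕ) (s : ℕ → ℤ) : Prop :=
  (∀ l, 0 ≤ s l ∧ s l < b) ∧ {l : ℕ | 1 ≤ l ∧ l ≤ L ∧ s l ≠ digit b x l}.ncard ≤ K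

/-- there is a nonzero polynomial `P(X, Y)` over `ℚ` of degree `≤ r` in `Y` and `≤ k` in `X` such
that `P(X, S(X))` is divisible by `X^(L+1)`, where `S` is the polynomial of the first `L` terms
of `s` -/
def AlgRelation (s : ℕ → ℤ) (r L k : ℕ) : Prop :=
  ∃ P : ℚ[X][X], P ≠ 0 ∧ P.natDegree ≤ r ∧ (∀ j, (P.coeff j).natDegree ≤ k) ∧
    X ^ (L + 1) ∣ P.eval (seqPoly s L)

/-- the `K`-error algebraic complexity of degree `r` of the first `L` digits of `x` in base `b`: the
least `k` such that after the change of at most `K` of the digits there is a relation with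
coefficients of degree at most `k` -/
noncomputable def complexity (b : ℕ) (x : ℝ) (r K L : ℕ) : ℕ :=
  sInf {k : ℕ | ∃ s, Near b x K L s ∧ AlgRelation s r L k}

/-- the indices of the numbers of low complexity -/
def Low {κ : Type} [Fintype κ] (A : ℝ) (r : ℕ) (y : κ → ℝ) (b K L : κ → ℕ) (M : ℝ) : Set κ :=
  {i | A ^ (∑ j, K j + 1) * ((complexity (b i) (y i) r (K i) (L i) + 1) * Real.log (b i)) < M}

/-- For every `r` there is a constant `A` such that the set of the indices of the numbers of low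
complexity has the property `Good`, for all bases, lengths and numbers of errors. -/
def AllScales {κ : Type} [Fintype κ] (y : κ → ℝ) (Good : Set κ → Prop) : Prop :=
  ∀ r : ℕ, ∃ A : ℝ, 1 ≤ A ∧ ∀ b : κ → ℕ, (∀ i, 2 ≤ b i) → ∀ K L : κ → ℕ, ∀ M : ℝ,
    (∀ i, M ≤ L i * Real.log (b i)) → Good (Low A r y b K L M)

/-- `δ(x) = ∫_0^∞ e^(-s) / (x + s) ds` -/
noncomputable def delta (x : ℝ) : ℝ := ∫ s in Set.Ioi (0 : ℝ), Real.exp (-s) / (x + s)

/-- `G_l(x) = ∫_0^∞ log(1 + s/x)^l e^(-s) ds` -/
noncomputable def G (l : ℕ) (x : ℝ) : ℝ :=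
  ∫ s in Set.Ioi (0 : ℝ), Real.log (1 + s / x) ^ l * Real.exp (-s)

/-- `γ` and the numbers `δ(x_i)` -/
noncomputable def fam {k : ℕ} (x : Fin k → ℚ) (o : Option (Fin k)) : ℝ :=
  o.elim Real.eulerMascheroniConstant (fun i => delta (x i))

open Pool.Agent.Run7.h168.Mult

lemma all_scales {κ : Type} [Fintype κ] (y : κ → ℝ) (Good : Set κ → Prop)
    (h : ∀ J : Finset κ, ¬ Good J → JointM (fun i : J => y i)) (h0 : Good ∅) : AllScales y Good := by
  classical
  intro r
  obtain ⟨A, hA, hl⟩ := low_family y (fun J => ¬ Good J) h (by rw [Finset.coe_empty]; exact fun h => h h0) r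
  refine ⟨A, hA, fun b hb K L M hM => ?_⟩
  have h1 := hl b hb K L M hM (Finset.univ.filter fun i => i ∈ Low A r y b K L M)
    (fun i hi => (Finset.mem_filter.1 hi).2)
  have h2 : ((Finset.univ.filter fun i => i ∈ Low A r y b K L M : Finset κ) : Set κ) = Low A r y b K L M := by
    ext i
    simp
  rw [h2] at h1
  exact not_not.1 h1

lemma delta_eq (x : ℚ) (hx : 0 < x) : delta x = Pool.Agent.N743.SS.gom 1 x :=
  (Pool.Agent.R352.E.dl_one (x := (x : ℝ)) (by exact_mod_cast hx)).symm

/-- part (1), the joint measure -/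
lemma joint_one {k : ℕ} (x : Fin k → ℚ) (hx : ∀ i, 0 < x i) (hinj : Function.Injective x) (n : Fin k → ℤ)
    (hn : n ≠ 0) (hprod : ∏ i, x i ^ n i = 1) (J : Finset (Option (Fin k)))
    (hJ : ∀ i, n i ≠ 0 → some i ∈ J) (hJ0 : none ∈ J ∨ ∑ i, n i = 0) : JointM (fun i : J => fam x i) := by
  have hlog : ∑ i, (n i : ℝ) * Real.log (x i) = 0 := by
    have h1 : Real.log ((∏ i, x i ^ n i : ℚ) : ℝ) = 0 := by rw [hprod]; simp
    push_cast at h1
    rw [Real.log_prod (fun i _ => zpow_ne_zero _ (by exact_mod_cast (hx i).ne'))] at h1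
    rw [← h1]
    exact Finset.sum_congr rfl fun i _ => by rw [Real.log_zpow]
  refine joint_gom 1 le_rfl x hx hinj n hn _ (fun i hi => ?_) ?_
  · rw [← delta_eq (x i) (hx i)]
    exact Algebra.subset_adjoin ⟨⟨some i, hJ i hi⟩, rfl⟩
  · have h2 : ∑ i, (n i : ℝ) * Pool.Agent.N743.SS.mom 1 (x i) = (∑ i, n i : ℤ) * Real.eulerMascheroniConstant := by
      simp only [Pool.Agent.N743.SS.mom_one, mul_add]
      rw [Finset.sum_add_distrib, hlog, add_zero, ← Finset.sum_mul]
      push_cast
      rfl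
    rw [h2]
    rcases hJ0 with h | h
    · have h3 : Real.eulerMascheroniConstant ∈ Algebra.adjoin ℤ (Set.range (fun i : J => fam x i)) :=
        Algebra.subset_adjoin ⟨⟨none, h⟩, rfl⟩
      have h4 := (Algebra.adjoin ℤ (Set.range (fun i : J => fam x i))).smul_mem h3 (∑ i, n i)
      rw [zsmul_eq_mul] at h4
      exact h4
    · rw [h, Int.cast_zero, zero_mul]
      exact Subalgebra.zero_mem _

/-- integer kernels -/
lemma int_kernel {α β : Type} [Fintype α] [Fintype β] (A : Matrix α β ℤ)
    (h : Fintype.card α < Fintype.card β) : ∃ t : β → ℤ, t ≠ 0 ∧ ∀ i, ∑ j, A i j * t j = 0 := by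
  rcases Nat.eq_zero_or_pos (Fintype.card α) with h0 | hpos
  · have h1 : IsEmpty α := Fintype.card_eq_zero_iff.1 h0
    have h2 : Nonempty β := Fintype.card_pos_iff.1 (by omega)
    obtain ⟨j⟩ := h2
    exact ⟨fun _ => 1, fun h3 => one_ne_zero (congrFun h3 j), fun i => h1.elim i⟩
  · obtain ⟨t, ht, hA, _⟩ := Int.Matrix.exists_ne_zero_int_vec_norm_le A h hpos
    exact ⟨t, ht, fun i => congrFun hA i⟩

/-- the primes up to `n` -/
def primes (n : ℕ) : Finset ℕ := (Finset.range (n + 1)).filter Nat.Prime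

lemma card_primes (n : ℕ) : (primes n).card = Nat.primeCounting n := by
  rw [primes, Nat.primeCounting, Nat.primeCounting', Nat.count_eq_card_filter_range]

lemma nat_eq (n m : ℕ) (hm : 1 ≤ m) (hmn : m ≤ n) : (m : ℚ) = ∏ p ∈ primes n, (p : ℚ) ^ (m.factorization p) := by
  have h1 : m = ∏ p ∈ primes n, p ^ m.factorization p := by
    conv_lhs => rw [← Nat.prod_factorization_pow_eq_self (show m ≠ 0 by omega)]
    rw [Finsupp.prod]
    refine Finset.prod_subset ?_ fun p _ hp => ?_
    · intro p hp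
      rw [Nat.support_factorization, Nat.mem_primeFactors] at hp
      rw [primes, Finset.mem_filter, Finset.mem_range]
      exact ⟨by have := Nat.le_of_dvd (by omega) hp.2.1; omega, hp.1⟩
    · rw [Finsupp.notMem_support_iff.1 hp, pow_zero]
  conv_lhs => rw [h1]
  push_cast
  rfl

/-- part (2), the relation -/
lemma relation_two (n : ℕ) (J : Finset (Option (Fin n))) (hJ : Nat.primeCounting n + 2 ≤ J.card) :
    ∃ t : Fin n → ℤ, t ≠ 0 ∧ ∏ i : Fin n, (((i : ℕ) + 1 : ℕ) : ℚ) ^ t i = 1 ∧ (∀ i, t i ≠ 0 → some i ∈ J) ∧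
      (none ∈ J ∨ ∑ i, t i = 0) := by
  classical
  obtain ⟨T, hT⟩ : ∃ T : Finset (Fin n), ∀ i, i ∈ T ↔ some i ∈ J :=
    ⟨Finset.univ.filter fun i => some i ∈ J, fun i => by simp⟩
  have hcard : J.card = T.card + if none ∈ J then 1 else 0 := by
    have h1 : J = (if none ∈ J then {none} else ∅) ∪ T.map Function.Embedding.some := by
      ext o
      rw [Finset.mem_union, Finset.mem_map]
      cases o with
      | none => split_ifs with h <;> simp [h]
      | some i =>
        have := hT i
        split_ifs <;> simp [this]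
    conv_lhs => rw [h1]
    rw [Finset.card_union_of_disjoint, Finset.card_map]
    · split_ifs <;> simp [add_comm]
    · rw [Finset.disjoint_left]
      intro o ho h
      rw [Finset.mem_map] at h
      obtain ⟨i, _, rfl⟩ := h
      split_ifs at ho <;> simp at ho
  -- a vector on `T`
  obtain ⟨t, ht0, htp, hts⟩ : ∃ t : T → ℤ, t ≠ 0 ∧ (∀ p ∈ primes n, ∑ i : T, (((i : Fin n) : ℕ) + 1).factorization p * t i = 0) ∧
      (none ∈ J ∨ ∑ i : T, t i = 0) := by
    by_cases hn : none ∈ J
    · rw [if_pos hn] at hcard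
      obtain ⟨t, ht, hA⟩ := int_kernel (α := primes n) (β := T)
        (fun p i => ((((i : Fin n) : ℕ) + 1).factorization p : ℕ)) (by
          rw [Fintype.card_coe, Fintype.card_coe, card_primes]; omega)
      exact ⟨t, ht, fun p hp => hA ⟨p, hp⟩, Or.inl hn⟩
    · rw [if_neg hn] at hcard
      obtain ⟨t, ht, hA⟩ := int_kernel (α := Option (primes n)) (β := T)
        (fun o i => o.elim 1 fun p => ((((i : Fin n) : ℕ) + 1).factorization p : ℕ)) (by
          rw [Fintype.card_option, Fintype.card_coe, Fintype.card_coe, card_primes]; omega)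
      refine ⟨t, ht, fun p hp => hA (some ⟨p, hp⟩), Or.inr ?_⟩
      have h1 := hA none
      simpa using h1
  obtain ⟨t', ht'⟩ : ∃ t' : Fin n → ℤ, t' = fun i => if h : i ∈ T then t ⟨i, h⟩ else 0 := ⟨_, rfl⟩
  have hsum : ∀ f : Fin n → ℤ, ∑ i, f i * t' i = ∑ i : T, f i * t i := by
    intro f
    rw [← Finset.sum_subset (Finset.subset_univ T), ← Finset.sum_coe_sort T]
    · refine Finset.sum_congr rfl fun i _ => ?_
      rw [ht']
      simp only [dif_pos i.2]
    · intro i _ hi
      rw [ht']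
      simp only [dif_neg hi, mul_zero]
  refine ⟨t', ?_, ?_, ?_, ?_⟩
  · intro h0
    apply ht0
    funext i
    have h1 := congrFun h0 i
    rw [ht'] at h1
    simp only [dif_pos i.2] at h1
    exact h1
  · have h1 : ∀ i : Fin n, ((((i : ℕ) + 1 : ℕ) : ℚ)) ^ t' i =
        ∏ p ∈ primes n, (p : ℚ) ^ ((((i : ℕ) + 1).factorization p : ℤ) * t' i) := by
      intro i
      conv_lhs => rw [nat_eq n ((i : ℕ) + 1) (by omega) i.2]
      rw [← Finset.prod_zpow]
      refine Finset.prod_congr rfl fun p _ => ?_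
      rw [zpow_mul, zpow_natCast]
    rw [Finset.prod_congr rfl fun i _ => h1 i, Finset.prod_comm]
    refine Finset.prod_eq_one fun p hp => ?_
    have hp0 : (p : ℚ) ≠ 0 := by
      rw [primes, Finset.mem_filter] at hp
      exact_mod_cast hp.2.ne_zero
    have h2 : ∀ s : Finset (Fin n), ∏ i ∈ s, (p : ℚ) ^ ((((i : ℕ) + 1).factorization p : ℤ) * t' i) =
        (p : ℚ) ^ (∑ i ∈ s, (((i : ℕ) + 1).factorization p : ℤ) * t' i) := by
      intro s
      induction s using Finset.induction_on with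
      | empty => simp
      | insert i s hi ih => rw [Finset.prod_insert hi, Finset.sum_insert hi, zpow_add₀ hp0, ih]
    rw [h2, hsum (fun i => (((i : ℕ) + 1).factorization p : ℤ)), htp p hp, zpow_zero]
  · intro i hi
    rw [← hT]
    by_contra hcon
    apply hi
    rw [ht']
    simp only [dif_neg hcon]
  · rcases hts with h | h
    · exact Or.inl h
    · right
      have h1 := hsum (fun _ => 1)
      simp only [one_mul] at h1
      rw [h1, h]

/-- part (3), the relation -/
lemma relation_three (l : ℕ) (x ρ : ℚ) (hx : 0 < x) (hρ : 0 < ρ) {β : Type} [Fintype β] (k t : β → ℤ)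
    (h : ∀ i ≤ l, ∑ j, (k j) ^ i * t j = 0) :
    ∑ j, (t j : ℝ) * Pool.Agent.N743.SS.mom l ((x * ρ ^ k j : ℚ) : ℝ) = 0 := by
  have hx' : (0 : ℝ) < x := by exact_mod_cast hx
  have hρ' : (0 : ℝ) < ρ := by exact_mod_cast hρ
  have hlog : ∀ j, Real.log ((x * ρ ^ k j : ℚ) : ℝ) = Real.log x + k j * Real.log ρ := by
    intro j
    push_cast
    rw [Real.log_mul hx'.ne' (by positivity), Real.log_zpow]
  have hpow : ∀ m ≤ l, ∑ j, (t j : ℝ) * (Real.log x + k j * Real.log ρ) ^ m = 0 := by
    intro m hm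
    have h1 : ∀ j, (t j : ℝ) * (Real.log x + k j * Real.log ρ) ^ m =
        ∑ i ∈ range (m + 1), (Real.log x ^ i * Real.log ρ ^ (m - i) * (m.choose i : ℝ)) * ((k j : ℝ) ^ (m - i) * t j) := by
      intro j
      rw [add_pow, Finset.mul_sum]
      refine Finset.sum_congr rfl fun i _ => ?_
      rw [mul_pow]; ring
    simp only [h1]
    rw [Finset.sum_comm]
    refine Finset.sum_eq_zero fun i _ => ?_
    rw [← Finset.mul_sum]
    have h2 : ∑ j, (k j : ℝ) ^ (m - i) * (t j : ℝ) = 0 := by
      have := h (m - i) (by omega)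
      exact_mod_cast this
    rw [h2, mul_zero]
  simp only [Pool.Agent.N743.SS.mom_eq, Pool.Agent.R352.E.NN, hlog]
  have h3 : ∀ j, (t j : ℝ) * ((-1) ^ l * ∑ i ∈ range (l + 1), (l.choose i : ℝ) * (-1) ^ (l - i) *
      ((Real.log x + k j * Real.log ρ) ^ (l - i) * Pool.Agent.R352.E.mo i)) =
      ∑ i ∈ range (l + 1), ((-1) ^ l * (l.choose i : ℝ) * (-1) ^ (l - i) * Pool.Agent.R352.E.mo i) *
        ((t j : ℝ) * (Real.log x + k j * Real.log ρ) ^ (l - i)) := by
    intro j
    rw [Finset.mul_sum, Finset.mul_sum]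
    exact Finset.sum_congr rfl fun i _ => by ring
  simp only [h3]
  rw [Finset.sum_comm]
  refine Finset.sum_eq_zero fun i _ => ?_
  rw [← Finset.mul_sum, hpow (l - i) (by omega), mul_zero]

/-- part (3), the joint measure -/
lemma joint_three (l : ℕ) (hl : 1 ≤ l) (x ρ : ℚ) (hx : 0 < x) (hρ : 0 < ρ) (hρ1 : ρ ≠ 1) (I : Finset ℤ)
    (J : Finset I) (hJ : l + 2 ≤ J.card) :
    JointM (fun i : J => G l ((x * ρ ^ ((i : I) : ℤ) : ℚ) : ℝ)) := by
  classical
  obtain ⟨e⟩ : Nonempty (J ≃ Fin J.card) := ⟨J.equivFin⟩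
  obtain ⟨k, hk⟩ : ∃ k : Fin J.card → ℤ, k = fun i => (((e.symm i : J) : I) : ℤ) := ⟨_, rfl⟩
  have hkinj : Function.Injective k := by
    rw [hk]
    intro i j hij
    exact e.symm.injective (Subtype.ext (Subtype.ext hij))
  obtain ⟨t, ht, hA⟩ := int_kernel (α := Fin (l + 1)) (β := Fin J.card) (fun i j => (k j) ^ (i : ℕ)) (by
    rw [Fintype.card_fin, Fintype.card_fin]; omega)
  have hrel := relation_three l x ρ hx hρ k t (fun i hi => hA ⟨i, by omega⟩)
  refine joint_gom l hl (fun i => x * ρ ^ k i) (fun i => by positivity) ?_ t ht _ (fun i _ => ?_) ?_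
  · intro i j hij
    have h1 : ρ ^ k i = ρ ^ k j := mul_left_cancel₀ hx.ne' hij
    exact hkinj (zpow_right_injective₀ hρ hρ1 h1)
  · refine Algebra.subset_adjoin ⟨e.symm i, ?_⟩
    rw [hk]
    rfl
  · rw [hrel]
    exact Subalgebra.zero_mem _

theorem result :
    (∀ (k : ℕ) (x : Fin k → ℚ), (∀ i, 0 < x i) → Function.Injective x →
      AllScales (fam x) fun S => ∀ n : Fin k → ℤ, n ≠ 0 → ∏ i, x i ^ n i = 1 →
        (none ∈ S ∨ ∑ i, n i = 0) → ∃ i, n i ≠ 0 ∧ some i ∉ S) ∧
    (∀ n : ℕ, AllScales (fam fun i : Fin n => ((i : ℕ) : ℚ) + 1) fun S => S.ncard ≤ 1 + Nat.primeCounting n) ∧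
    (∀ l : ℕ, 1 ≤ l → ∀ x ρ : ℚ, 0 < x → 0 < ρ → ρ ≠ 1 → ∀ I : Finset ℤ,
      AllScales (fun i : I => G l ((x * ρ ^ (i : ℤ) : ℚ) : ℝ)) fun S => S.ncard ≤ l + 1) := by
  classical
  refine ⟨fun k x hx hinj => ?_, fun n => ?_, fun l hl x ρ hx hρ hρ1 I => ?_⟩
  · refine all_scales _ _ (fun J hJ => ?_) ?_
    · push Not at hJ
      obtain ⟨n, hn, hprod, h0, hsub⟩ := hJ
      exact joint_one x hx hinj n hn hprod J (fun i hi => by simpa using hsub i hi) (by simpa using h0)
    · intro n hn _ _
      by_contra hcon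
      push Not at hcon
      exact hn (funext fun i => by
        by_contra hi
        exact absurd (hcon i hi) (Set.notMem_empty _))
  · refine all_scales _ _ (fun J hJ => ?_) (by simp)
    rw [Set.ncard_coe_finset] at hJ
    obtain ⟨t, ht, hprod, hsub, h0⟩ := relation_two n J (by omega)
    refine joint_one (fun i : Fin n => ((i : ℕ) : ℚ) + 1) (fun i => by positivity) ?_ t ht ?_ J hsub h0
    · intro i j hij
      have h1 : ((i : ℕ) : ℚ) = ((j : ℕ) : ℚ) := by simpa using hij
      exact Fin.ext (by exact_mod_cast h1)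
    · refine Eq.trans (Finset.prod_congr rfl fun i _ => ?_) hprod
      push_cast
      rfl
  · refine all_scales _ _ (fun J hJ => ?_) (by simp)
    rw [Set.ncard_coe_finset] at hJ
    exact joint_three l hl x ρ hx hρ hρ1 I J (by omega)

end Pool.Agent.Results.MP_e48a95_nt.DigitsAtSeveralPoints
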