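import Mathlib
import Pool.Agent.Run7.h838.LF.Gz
import Pool.Agent.R352.Q.Three

set_option autoImplicit false

/-!
# Euler's constant, `ζ(3)` and `ζ(3)/π³` over fields generated by `e` and Liouville numbers

A field `F` of real numbers is simultaneously Liouville (`SimLiouville F`) if for any finitely many
elements `x_1, …, x_m` of `F` and all `w`, `q₀` there is `q ≥ q₀` with `‖q x_i‖ < q ^ (-w)` for all `i`.
Every Liouville number lies in such a field, and some of these fields have the power of the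
continuum.

(0) Transfer: if real numbers `x_i` have a measure of algebraic independence over `ℚ` which is
polynomial in the height for every degree, they are algebraically independent over every
simultaneously Liouville field.

For positive rational `x` let
`E_l(x) = ∑_{m ≥ 1} (-1)^(m-1) x^m / (m! m^l)`, `δ_l(x) = ∫_0^∞ log (1 + s / x)^l e^(-s) ds` and
`δ(x) = ∫_0^∞ e^(-s) / (x + s) ds = δ_1(x)` (`δ(1)` is the constant of Gompertz), and let `R(x)` be
`1/12 ∫ log (t_1 t_2 / t_3²)³ exp (-t_1 - t_2 - t_3) dt`, the integral being over the points of the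
positive octant with `max t_i ≥ x`; over the whole octant the value is `ζ(3)`.

Let `F` be a simultaneously Liouville field.

(1) The numbers `e` and `E_l(x)` (`l ≥ 1`, `x` positive rational) are algebraically independent
over `F`.

(2) For all positive rational `x` one of `γ + log x`, `δ(x)` is transcendental over `F(e)`; in
particular one of `γ`, `δ(1)` is. The numbers `e` and `γ + log x`, `x` in the set `X` of the positive
rational numbers with `δ(x)` algebraic over `F(e)`, are algebraically independent over `F`, and `X`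
contains no three terms of a geometric progression.

(3) At most one of the numbers `ζ(3)` and `R(x)`, `x` positive rational, is algebraic over `F(e)`.

(4) At most three of the seven numbers `γ, ζ(3), ζ(3)/π³, δ_1(1), δ_2(1), δ_3(1), δ_4(1)` are algebraic
over `F(e)`, and `F(e)` and the seven numbers generate a field of transcendence degree at least five
over `F`.

(5) Let `y_1, …, y_r` be real numbers and `c ≥ 0`. At most `c + 2 + r` of the numbers
`ζ(3), ζ(3)/π³, ζ(5), …, ζ(2c+3)`, `y_1, …, y_r` and `δ_l(x)` (`1 ≤ l ≤ 2c+4`, `x` positive rational such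
that `γ + log x` is algebraic over `F(e, y_1, …, y_r)`) are algebraic over `F(e)`.
-/

namespace Pool.Agent.Results.MP_e48a95_nt.EulerOverLiouvilleFields

open Set MeasureTheory Filter Pool.Agent.Q163.LE

/-- a measure of algebraic independence, polynomial in the height for every degree -/
def HasMeasure {ι : Type} (x : ι → ℝ) : Prop :=
  ∀ D : ℕ, ∃ κ c : ℝ, 0 < κ ∧ 0 < c ∧ ∀ P : MvPolynomial ι ℤ, P ≠ 0 → P.totalDegree ≤ D →
    ∀ H : ℝ, (∀ s, |((P.coeff s : ℤ) : ℝ)| ≤ H) → c * H ^ (-κ) ≤ |MvPolynomial.aeval x P|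

/-- `ζ(k) = ∑ 1 / n^k` -/
noncomputable def zeta (k : ℕ) : ℝ := ∑' n : ℕ, 1 / ((n : ℝ) + 1) ^ k

/-- `E_l(x) = ∑_{m ≥ 1} (-1)^(m-1) x^m / (m! m^l)` -/
noncomputable def E (l : ℕ) (x : ℚ) : ℝ :=
  ∑' m : ℕ, (-1) ^ m * (x : ℝ) ^ (m + 1) / ((m + 1).factorial * ((m : ℝ) + 1) ^ l)

/-- `δ(x) = ∫_0^∞ e^(-s) / (x + s) ds` -/
noncomputable def delta (x : ℚ) : ℝ := ∫ s in Ioi (0 : ℝ), Real.exp (-s) / ((x : ℝ) + s)

/-- `δ_l(x) = ∫_0^∞ log (1 + s / x)^l e^(-s) ds` -/
noncomputable def deltaLevel (l : ℕ) (x : ℚ) : ℝ :=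
  ∫ s in Ioi (0 : ℝ), Real.log (1 + s / (x : ℝ)) ^ l * Real.exp (-s)

/-- `log (t_1 t_2 / t_3²)³ exp (-t_1 - t_2 - t_3)` -/
noncomputable def integrand (t : Fin 3 → ℝ) : ℝ :=
  Real.log (t 0 * t 1 / t 2 ^ 2) ^ 3 * Real.exp (-(t 0 + t 1 + t 2))

/-- the tail `R(x)` of the triple integral for `ζ(3)` -/
noncomputable def R (x : ℚ) : ℝ :=
  1 / 12 * ∫ t in {t : Fin 3 → ℝ | (∀ j, 0 < t j) ∧ ∃ j, (x : ℝ) ≤ t j}, integrand t

/-- `x` is algebraic over `F(e)` -/
def AlgE (F : Subfield ℝ) (x : ℝ) : Prop :=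
  IsAlgebraic (IntermediateField.adjoin F ({Real.exp 1} : Set ℝ)) x

/-- `x` is algebraic over `F(e, y_1, …, y_r)` -/
def AlgEY (F : Subfield ℝ) {r : ℕ} (y : Fin r → ℝ) (x : ℝ) : Prop :=
  IsAlgebraic (IntermediateField.adjoin F ({Real.exp 1} ∪ range y)) x

/-- the seven numbers -/
noncomputable def seven : Fin 7 → ℝ :=
  ![Real.eulerMascheroniConstant, zeta 3, zeta 3 / Real.pi ^ 3, deltaLevel 1 1, deltaLevel 2 1,
    deltaLevel 3 1, deltaLevel 4 1]

/-- `ζ(3), ζ(3)/π³, ζ(5), …, ζ(2c+3)` -/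
noncomputable def constants (c : ℕ) : Fin (c + 2) → ℝ :=
  Fin.cons (zeta 3) (Fin.cons (zeta 3 / Real.pi ^ 3) fun i : Fin c => zeta (2 * i + 5))

/-- the names of the numbers in (5) which are algebraic over `F(e)` -/
def names (F : Subfield ℝ) (c : ℕ) {r : ℕ} (y : Fin r → ℝ) :
    Set (Fin (c + 2) ⊕ Fin r ⊕ (Fin (2 * c + 4) × ℚ)) :=
  {i | Sum.elim (fun j => AlgE F (constants c j)) (Sum.elim (fun j => AlgE F (y j)) fun p =>
    0 < p.2 ∧ AlgEY F y (Real.eulerMascheroniConstant + Real.log p.2) ∧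
      AlgE F (deltaLevel (p.1 + 1) p.2)) i}

open Pool.Agent.R352.E Run7.h838.LF

theorem E_eq (l : ℕ) (x : ℚ) : E l x = EE l x := by
  rw [E, EE]
  refine tsum_congr fun m => ?_
  congr 1
  have h : (-(x : ℝ)) ^ (m + 1) = (-1) ^ (m + 1) * (x : ℝ) ^ (m + 1) := by
    rw [← mul_pow]; congr 1; ring
  rw [h, pow_succ (-1 : ℝ) m]
  ring

theorem algE_iff {F : Subfield ℝ} {x : ℝ} : AlgE F x ↔ x ∈ clF ((F : Set ℝ) ∪ {Real.exp 1}) :=
  mem_clF_field.symm

theorem algEY_iff {F : Subfield ℝ} {r : ℕ} {y : Fin r → ℝ} {x : ℝ} :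
    AlgEY F y x ↔ x ∈ clF ((F : Set ℝ) ∪ ({Real.exp 1} ∪ range y)) :=
  mem_clF_field.symm

theorem level_one {x : ℚ} (hx : 0 < x) : deltaLevel 1 x = delta x := by
  have hx' : (0 : ℝ) < x := by exact_mod_cast hx
  exact dl_one hx'

theorem R_eq {x : ℚ} (hx : 0 < x) : R x = Pool.Agent.R352.Q.Rk 3 x := by
  have hx' : (0 : ℝ) < x := by exact_mod_cast hx
  have h := Pool.Agent.R352.Q.three_rest hx'
  have e : {t : Fin 3 → ℝ | (∀ j, 0 < t j) ∧ ∃ j, (x : ℝ) ≤ t j} =
      Pool.Agent.R352.Q.cube 3 (Ioi 0) \ Pool.Agent.R352.Q.cube 3 (Ioo 0 (x : ℝ)) := by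
    ext t
    simp only [Pool.Agent.R352.Q.cube, Set.mem_sdiff, mem_univ_pi, mem_Ioi, mem_Ioo, mem_ofPred_eq]
    constructor
    · rintro ⟨h1, j, h2⟩
      exact ⟨h1, fun h => absurd (h j).2 (not_lt.2 h2)⟩
    · rintro ⟨h1, h2⟩
      push Not at h2
      obtain ⟨j, hj⟩ := h2
      exact ⟨h1, j, hj (h1 j)⟩
  rw [R, e]
  simp only [integrand]
  rw [h]
  ring

theorem whole : 1 / 12 * ∫ t in {t : Fin 3 → ℝ | ∀ j, 0 < t j}, integrand t = zeta 3 := by
  have e : {t : Fin 3 → ℝ | ∀ j, 0 < t j} = Pool.Agent.R352.Q.cube 3 (Ioi 0) := by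
    ext t
    simp [Pool.Agent.R352.Q.cube]
  have h1 : ((∫ t in Pool.Agent.R352.Q.cube 3 (Ioi 0), integrand t : ℝ) : ℂ) =
      ((12 * zt 3 : ℝ) : ℂ) := by
    rw [show ((∫ t in Pool.Agent.R352.Q.cube 3 (Ioi 0), integrand t : ℝ) : ℂ) =
      ∫ t in Pool.Agent.R352.Q.cube 3 (Ioi 0), ((integrand t : ℝ) : ℂ) from integral_ofReal.symm]
    have h2 : ∫ t in Pool.Agent.R352.Q.cube 3 (Ioi 0), ((integrand t : ℝ) : ℂ) =
        ∫ t in Pool.Agent.R352.Q.cube 3 (Ioi 0),
          Pool.Agent.R352.Q.FI 3 (![1, 1, -2] : Fin 3 → ℂ) t := by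
      refine setIntegral_congr_fun (Pool.Agent.R352.Q.meas_cube 3 measurableSet_Ioi) fun t ht => ?_
      exact (Pool.Agent.R352.Q.FI_three t fun j => ht j (mem_univ j)).symm
    rw [h2, Pool.Agent.R352.Q.cube,
      Pool.Agent.R352.Q.cube_three subset_rfl Pool.Agent.R352.Q.deriv_Fs_Ioi,
      Pool.Agent.R352.Q.const_Fs_Ioi]
    have h3 : PowerSeries.coeff 2 PC = (-1) ^ 3 * zt 3 :=
      Pool.Agent.R352.Q.coeff_PC (k := 3) (by norm_num)
    rw [h3]
    push_cast
    ring
  have h2 : ∫ t in Pool.Agent.R352.Q.cube 3 (Ioi 0), integrand t = 12 * zt 3 := by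
    exact_mod_cast h1
  rw [e, h2]
  have : zeta 3 = zt 3 := rfl
  rw [this]
  ring

/-- (5) -/
theorem names_le {F : Subfield ℝ} (hF : SimLiouville F) (c : ℕ) {r : ℕ} (y : Fin r → ℝ) :
    (names F c y).encard ≤ ((c + 2 + r : ℕ) : ℕ∞) := by
  refine encard_le_of_finset _ _ fun t ht => ?_
  refine count_zeta hF y t (fun i hi => ?_) fun p hp => ?_
  · have h1 := ht hi
    rcases i with i | i | p
    · exact algE_iff.1 h1
    · exact algE_iff.1 h1
    · exact algE_iff.1 h1.2.2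
  · have h1 := ht hp
    exact ⟨h1.1, algEY_iff.1 h1.2.1⟩

theorem mem_gamma (F : Subfield ℝ) : AlgEY F ![Real.eulerMascheroniConstant]
    (Real.eulerMascheroniConstant + Real.log ((1 : ℚ) : ℝ)) := by
  rw [algEY_iff]
  simp only [Rat.cast_one, Real.log_one, add_zero]
  exact subset_clF _ (Or.inr (Or.inr ⟨0, rfl⟩))

/-- (4), counting -/
theorem seven_le {F : Subfield ℝ} (hF : SimLiouville F) :
    {i : Fin 7 | AlgE F (seven i)}.encard ≤ 3 := by
  let f : Fin 7 → Fin (0 + 2) ⊕ Fin 1 ⊕ (Fin (2 * 0 + 4) × ℚ) :=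
    ![Sum.inr (Sum.inl 0), Sum.inl 0, Sum.inl 1, Sum.inr (Sum.inr (0, 1)), Sum.inr (Sum.inr (1, 1)),
      Sum.inr (Sum.inr (2, 1)), Sum.inr (Sum.inr (3, 1))]
  have hf : Function.Injective f := by
    intro a b hab
    fin_cases a <;> fin_cases b <;> first | rfl | (exfalso; revert hab; simp [f])
  have hsub : f '' {i : Fin 7 | AlgE F (seven i)} ⊆
      names F 0 ![Real.eulerMascheroniConstant] := by
    rintro _ ⟨i, hi, rfl⟩
    have hi' : AlgE F (seven i) := hi
    fin_cases i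
    · exact hi'
    · exact hi'
    · exact hi'
    · exact ⟨one_pos, mem_gamma F, hi'⟩
    · exact ⟨one_pos, mem_gamma F, hi'⟩
    · exact ⟨one_pos, mem_gamma F, hi'⟩
    · exact ⟨one_pos, mem_gamma F, hi'⟩
  calc {i : Fin 7 | AlgE F (seven i)}.encard = (f '' {i : Fin 7 | AlgE F (seven i)}).encard :=
        (hf.encard_image _).symm
    _ ≤ _ := encard_le_encard hsub
    _ ≤ 3 := by exact_mod_cast names_le hF 0 ![Real.eulerMascheroniConstant]

/-- (4), transcendence degree -/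
theorem seven_trdeg {F : Subfield ℝ} (hF : SimLiouville F) :
    5 ≤ Algebra.trdeg F (IntermediateField.adjoin F ({Real.exp 1} ∪ range seven)) := by
  obtain ⟨S, hS⟩ : ∃ S : Finset (Fin 4 × ℚ), S = Finset.univ.image fun l : Fin 4 => (l, (1 : ℚ)) :=
    ⟨_, rfl⟩
  have hcard : S.card = 4 := by
    rw [hS, Finset.card_image_of_injective _ (fun a b hab => (Prod.mk.inj hab).1)]
    rfl
  have hmem : ∀ p ∈ S, p.2 = 1 := by
    intro p hp
    rw [hS] at hp
    obtain ⟨l, -, rfl⟩ := Finset.mem_image.1 hp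
    rfl
  have h := EE_alg_S hF 4 (S : Set (Fin 4 × ℚ)) (by
    intro p hp
    rw [hmem p hp]
    exact one_pos)
  have h2 := trdeg_geF h (A := {Real.exp 1} ∪ range seven) ?_
  · refine le_trans (le_of_eq ?_) h2
    simp [hcard]
  · intro o
    have he : Real.exp 1 ∈ clF ((F : Set ℝ) ∪ ({Real.exp 1} ∪ range seven)) :=
      subset_clF _ (Or.inr (Or.inl rfl))
    cases o with
    | none => exact he
    | some p =>
      obtain ⟨⟨l, x⟩, hp⟩ := p
      have hx : x = 1 := hmem _ hp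
      subst hx
      simp only [Option.elim]
      refine mem_zeta (c := 0) (fun i => ?_) he l 1 one_pos ?_ ?_
      · fin_cases i
        · exact subset_clF _ (Or.inr (Or.inr ⟨1, rfl⟩))
        · exact subset_clF _ (Or.inr (Or.inr ⟨2, rfl⟩))
      · simp only [Rat.cast_one, Real.log_one, add_zero]
        exact subset_clF _ (Or.inr (Or.inr ⟨0, rfl⟩))
      · have hl : l = 0 ∨ l = 1 ∨ l = 2 ∨ l = 3 := by
          fin_cases l <;> simp
        rcases hl with rfl | rfl | rfl | rfl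
        · exact subset_clF _ (Or.inr (Or.inr ⟨3, rfl⟩))
        · exact subset_clF _ (Or.inr (Or.inr ⟨4, rfl⟩))
        · exact subset_clF _ (Or.inr (Or.inr ⟨5, rfl⟩))
        · exact subset_clF _ (Or.inr (Or.inr ⟨6, rfl⟩))

/-- (3) -/
theorem three_le {F : Subfield ℝ} (hF : SimLiouville F) :
    {o : Option ℚ | o.elim (AlgE F (zeta 3)) fun x => 0 < x ∧ AlgE F (R x)}.encard ≤ 1 := by
  let f : Option ℚ → Fin 1 ⊕ (ℕ × ℚ) := fun o => o.elim (Sum.inl 0) fun x => Sum.inr (3, x)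
  have hf : Function.Injective f := by
    intro a b hab
    cases a <;> cases b <;> simp_all [f]
  refine encard_le_of_finset _ _ fun t ht => ?_
  have h := countR hF (fun _ : Fin 1 => zt 3) (t.map ⟨f, hf⟩) ?_ ?_
  · rwa [Finset.card_map] at h
  · intro i hi
    obtain ⟨o, ho, rfl⟩ := Finset.mem_map.1 hi
    have h1 := ht ho
    cases o with
    | none => exact algE_iff.1 h1
    | some x =>
      have h2 : AlgE F (R x) := h1.2
      rw [R_eq h1.1] at h2
      exact algE_iff.1 h2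
  · intro p hp
    obtain ⟨o, ho, hop⟩ := Finset.mem_map.1 hp
    cases o with
    | none => exact absurd hop (by simp [f])
    | some x =>
      have h1 := ht ho
      have h2 : p = (3, x) := by
        have : Sum.inr (3, x) = (Sum.inr p : Fin 1 ⊕ (ℕ × ℚ)) := hop
        exact (Sum.inr_injective this).symm
      subst h2
      exact ⟨by norm_num, h1.1, subset_clF _ (Or.inr (Or.inr ⟨0, rfl⟩))⟩

/-- (2), pairs -/
theorem pair {F : Subfield ℝ} (hF : SimLiouville F) {x : ℚ} (hx : 0 < x) :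
    ¬ (AlgE F (Real.eulerMascheroniConstant + Real.log x) ∧ AlgE F (delta x)) := by
  rintro ⟨h1, h2⟩
  have hx' : (0 : ℝ) < x := by exact_mod_cast hx
  have h := ai_gz hF {x} (by
    rintro _ rfl
    exact ⟨hx, algE_iff.1 h2⟩)
  have h3 := card_leF (F := F) (x := fun o : Option ({x} : Set ℚ) => o.elim (Real.exp 1)
    (fun x => Real.eulerMascheroniConstant + Real.log (x : ℚ))) h (T := {Real.exp 1}) (by
      intro o
      cases o with
      | none => exact subset_clF _ (Or.inr rfl)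
      | some y =>
        obtain ⟨y, hy⟩ := y
        have : y = x := hy
        subst this
        exact algE_iff.1 h1)
  rw [encard_singleton, Fintype.card_option] at h3
  simp at h3

theorem result :
    -- examples of simultaneously Liouville fields
    (∀ ξ : ℝ, Liouville ξ → ∃ F : Subfield ℝ, SimLiouville F ∧ ξ ∈ F) ∧
    (∀ (T : ℕ → ℝ) (hT : Tendsto T atTop atTop), SimLiouville (ApField T hT)) ∧
    -- (0)
    (∀ (ι : Type) (x : ι → ℝ), HasMeasure x → ∀ F : Subfield ℝ, SimLiouville F →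
      AlgebraicIndependent F x) ∧
    -- the triple integral
    (1 / 12 * ∫ t in {t : Fin 3 → ℝ | ∀ j, 0 < t j}, integrand t = zeta 3) ∧
    (∀ x : ℚ, 0 < x → deltaLevel 1 x = delta x) ∧
    ∀ F : Subfield ℝ, SimLiouville F →
      -- (1)
      AlgebraicIndependent F (fun o : Option {p : ℕ × ℚ // 1 ≤ p.1 ∧ 0 < p.2} =>
        o.elim (Real.exp 1) fun p => E p.1.1 p.1.2) ∧
      -- (2)
      (∀ x : ℚ, 0 < x →
        ¬ (AlgE F (Real.eulerMascheroniConstant + Real.log x) ∧ AlgE F (delta x))) ∧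
      AlgebraicIndependent F (fun o : Option {x : ℚ | 0 < x ∧ AlgE F (delta x)} =>
        o.elim (Real.exp 1) fun x => Real.eulerMascheroniConstant + Real.log (x : ℚ)) ∧
      (∀ x y z : ℚ, 0 < x → 0 < y → 0 < z → x * z = y ^ 2 → AlgE F (delta x) → AlgE F (delta y) →
        AlgE F (delta z) → x = y ∧ y = z) ∧
      -- (3)
      {o : Option ℚ | o.elim (AlgE F (zeta 3)) fun x => 0 < x ∧ AlgE F (R x)}.encard ≤ 1 ∧
      -- (4)
      {i : Fin 7 | AlgE F (seven i)}.encard ≤ 3 ∧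
      5 ≤ Algebra.trdeg F (IntermediateField.adjoin F ({Real.exp 1} ∪ range seven)) ∧
      -- (5)
      ∀ (c r : ℕ) (y : Fin r → ℝ), (names F c y).encard ≤ ((c + 2 + r : ℕ) : ℕ∞) := by
  refine ⟨fun ξ hξ => liouville_field hξ, sim_apField, fun ι x hx F hF => ai_of_measM hx hF,
    whole, fun x hx => level_one hx, fun F hF => ?_⟩
  have hX := ai_gz hF {x : ℚ | 0 < x ∧ AlgE F (delta x)} fun x hx => ⟨hx.1, algE_iff.1 hx.2⟩
  refine ⟨?_, fun x hx => pair hF hx, hX, ?_, three_le hF, seven_le hF, seven_trdeg hF,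
    fun c r y => names_le hF c y⟩
  · have h := EE_alg_all hF
    convert h using 1
    funext o
    cases o with
    | none => rfl
    | some p => exact E_eq _ _
  · intro x y z hx hy hz hxyz h1 h2 h3
    exact gz_three (fun x hx => hx.1) hX x ⟨hx, h1⟩ y ⟨hy, h2⟩ z ⟨hz, h3⟩ hxyz

end Pool.Agent.Results.MP_e48a95_nt.EulerOverLiouvilleFields
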