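import Mathlib
import Pool.Agent.R473.JC.Final
import Pool.Agent.N743.SS.Gomp

/-!
# The digits of Euler's constant and of the Gompertz constant

`S(X) = s_1 X + ⋯ + s_L X^L`, where the `s_i` are the digits of a real number `y` in base `b` after
at most `K` of them have been changed.  The `K`-error algebraic complexity `N_b(y) = N_b(y; r, K, L)`
is the least `k` such that `X^(L+1)` divides `P(X, S(X))` for some nonzero polynomial `P(X, Y)` of
degree at most `r` in `Y` and at most `k` in `X` and some such choice of `S`; for `r = 1` this is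
essentially the linear complexity.

Let `δ = ∫_0^∞ e^(-s) / (1 + s) ds` be the Gompertz constant.  For every `r` and `n` there is `c > 0`
such that in every base `b`, for all `K` and all `L`, at most one of the `4 n + 2` numbers `γ e^j`,
`δ e^j`, `|j| ≤ n`, satisfies `N_b(y) + 1 < c^(K+1) L`.  The same is proved for the numbers
`e^(j x) ∫_0^∞ log(x/t)^l e^(-t) dt` and `e^(j x) ∫_0^∞ log(1 + s/x)^l e^(-s) ds` with any rational
`x > 0` and any integer `l ≥ 1`, and the two numbers may be read in different bases, with different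
lengths and different numbers of errors.

Proof.  A relation for the digits of `u` gives an integer polynomial `P` of degree at most `r` with
small coefficients and a very small value `P(u)` (Siegel's lemma); the last changed digit is bounded
by induction (`Pool.Agent.R473.JC`).  For one number of each kind
`u`, `v` the numbers `P(u)`, `Q(v)` cannot both be very small: `u` and `v` satisfy a linear relation
whose coefficients are polynomials in `e^x` and in the value `E_l(x)` of an iterated exponential
integral, and `e^x`, `E_l(x)` have a measure of algebraic independence (quantitative theorem of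
Siegel and Shidlovskii, `Pool.Agent.N743.SS`).
-/

set_option autoImplicit false

namespace Pool.Agent.Results.MP_e48a95_nt.JointDigitsEuler

open Finset Polynomial Module

/-- the `i`-th digit of `x` after the point in base `b` -/
noncomputable def digit (b : ℕ) (x : ℝ) (i : ℕ) : ℤ := ⌊x * (b : ℝ) ^ i⌋ % (b : ℤ)

/-- the polynomial `s_1 X + s_2 X^2 + ⋯ + s_L X^L` -/
noncomputable def seqPoly (s : ℕ → ℤ) (L : ℕ) : ℚ[X] := ∑ l ∈ Icc 1 L, C (s l : ℚ) * X ^ l

/-- `s` is a sequence of base `b` digits, and among the places `1, …, L` at most `K` are such that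
`s_l` is not the `l`-th digit of `x` -/
def Near (b : ℕ) (x : ℝ) (K L : ℕ) (s : ℕ → ℤ) : Prop :=
  (∀ l, 0 ≤ s l ∧ s l < b) ∧ {l : ℕ | 1 ≤ l ∧ l ≤ L ∧ s l ≠ digit b x l}.ncard ≤ K

/-- there is a nonzero polynomial `P(X, Y)` over `ℚ` of degree `≤ r` in `Y` and `≤ k` in `X` such
that `P(X, S(X))` is divisible by `X^(L+1)`, where `S` is the polynomial of the first `L` terms
of `s` -/
def AlgRelation (s : ℕ → ℤ) (r L k : ℕ) : Prop :=
  ∃ P : ℚ[X][X], P ≠ 0 ∧ P.natDegree ≤ r ∧ (∀ j, (P.coeff j).natDegree ≤ k) ∧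
    X ^ (L + 1) ∣ P.eval (seqPoly s L)

/-- the `K`-error algebraic complexity of degree `r` of the first `L` digits of `x` in base `b`: the
least `k` such that after the change of at most `K` of the digits there is a relation with
coefficients of degree at most `k` -/
noncomputable def complexity (b : ℕ) (x : ℝ) (r K L : ℕ) : ℕ :=
  sInf {k : ℕ | ∃ s, Near b x K L s ∧ AlgRelation s r L k}

/-- the joint lower bound for `u` and `v` in degree `r`, with the constant `A`, in all pairs of
bases, for all lengths and all numbers of errors -/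
def Bound (A : ℝ) (r : ℕ) (u v : ℝ) : Prop :=
  ∀ b b' : ℕ, 2 ≤ b → 2 ≤ b' → ∀ K K' L L' : ℕ,
    min (L * Real.log b) (L' * Real.log b') ≤
      A ^ (K + K' + 1) * ((complexity b u r K L + 1) * Real.log b +
        (complexity b' v r K' L' + 1) * Real.log b')

/-- `∫_0^∞ log(x/t)^l e^(-t) dt` -/
noncomputable def mom (l : ℕ) (x : ℝ) : ℝ :=
  ∫ t in Set.Ioi (0 : ℝ), (Real.log x - Real.log t) ^ l * Real.exp (-t)

/-- `∫_0^∞ log(1 + s/x)^l e^(-s) ds` -/
noncomputable def gom (l : ℕ) (x : ℝ) : ℝ :=
  ∫ s in Set.Ioi (0 : ℝ), Real.log (1 + s / x) ^ l * Real.exp (-s)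

/-- the numbers `e^(j x) ∫_0^∞ log(x/t)^l e^(-t) dt` and `e^(j x) ∫_0^∞ log(1 + s/x)^l e^(-s) ds` -/
noncomputable def fam (l : ℕ) (x : ℝ) (p : Bool × ℤ) : ℝ :=
  Real.exp (p.2 * x) * (if p.1 then mom l x else gom l x)

/-- the Gompertz constant `δ = ∫_0^∞ e^(-s) / (1 + s) ds` -/
noncomputable def gompertz : ℝ := ∫ s in Set.Ioi (0 : ℝ), Real.exp (-s) / (1 + s)

/-- the numbers `γ e^j` and `δ e^j` -/
noncomputable def num (p : Bool × ℤ) : ℝ :=
  (if p.1 then Real.eulerMascheroniConstant else gompertz) * Real.exp 1 ^ p.2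

/-- the case of one base, one length and one number of errors -/
lemma one_base (u v A : ℝ) (hA : 1 ≤ A) (r : ℕ) (h : Bound A r u v) (b : ℕ) (hb : 2 ≤ b)
    (K L : ℕ) : (1 / A ^ 2) ^ (K + 1) * (L : ℝ) ≤
      complexity b u r K L + complexity b v r K L + 2 := by
  have hl : 0 < Real.log b := Real.log_pos (by exact_mod_cast (by omega : 1 < b))
  have hA0 : 0 < A := by linarith
  have h1 := h b b hb hb K K L L
  rw [min_self] at h1
  have h2 : (L : ℝ) ≤ A ^ (K + K + 1) * (complexity b u r K L + complexity b v r K L + 2) := by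
    have h3 : (L : ℝ) * Real.log b ≤
        (A ^ (K + K + 1) * (complexity b u r K L + complexity b v r K L + 2)) * Real.log b := by
      linarith
    exact le_of_mul_le_mul_right h3 hl
  have h4 : A ^ (K + K + 1) ≤ (A ^ 2) ^ (K + 1) := by
    rw [← pow_mul]
    exact pow_le_pow_right₀ hA (by omega)
  rw [div_pow, one_pow, div_mul_eq_mul_div, one_mul, div_le_iff₀ (by positivity)]
  calc (L : ℝ) ≤ A ^ (K + K + 1) * (complexity b u r K L + complexity b v r K L + 2) := h2
    _ ≤ (A ^ 2) ^ (K + 1) * (complexity b u r K L + complexity b v r K L + 2) :=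
        mul_le_mul_of_nonneg_right h4 (by positivity)
    _ = _ := by ring

/-- one direction -/
lemma at_most_one (u v A : ℝ) (hA : 1 ≤ A) (r : ℕ) (h : Bound A r u v) (b : ℕ) (hb : 2 ≤ b)
    (K L : ℕ) (h1 : complexity b u r K L + 1 < (1 / A ^ 2 / 2) ^ (K + 1) * L)
    (h2 : complexity b v r K L + 1 < (1 / A ^ 2 / 2) ^ (K + 1) * L) : False := by
  have h3 := one_base u v A hA r h b hb K L
  have h4 : (1 / A ^ 2 / 2) ^ (K + 1) ≤ (1 / A ^ 2) ^ (K + 1) / 2 := by
    rw [div_pow (1 / A ^ 2) 2]
    refine div_le_div_of_nonneg_left (by positivity) (by norm_num) ?_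
    calc (2 : ℝ) = 2 ^ 1 := by norm_num
      _ ≤ 2 ^ (K + 1) := pow_le_pow_right₀ (by norm_num) (by omega)
  have h5 : (1 / A ^ 2 / 2) ^ (K + 1) * (L : ℝ) ≤ (1 / A ^ 2) ^ (K + 1) / 2 * L :=
    mul_le_mul_of_nonneg_right h4 (Nat.cast_nonneg L)
  linarith

lemma gom_one : gom 1 1 = gompertz := by
  have h := Pool.Agent.R352.E.dl_one (x := 1) one_pos
  exact h

lemma mom_one : mom 1 1 = Real.eulerMascheroniConstant := by
  have h := Pool.Agent.N743.SS.mom_one 1
  rw [Real.log_one, add_zero] at h
  exact h

lemma num_eq (p : Bool × ℤ) : num p = fam 1 1 p := by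
  have h : Real.exp 1 ^ p.2 = Real.exp (p.2 * 1) := by
    rw [← Real.rpow_intCast, ← Real.exp_mul, mul_comm]
  rw [num, fam, mom_one, gom_one, h, mul_comm]

/-- **(1)** For every integer `l ≥ 1`, every rational `x > 0`, every `r` and `n` there is `A ≥ 1` such
that the joint lower bound
`min (L log β, L' log β') ≤ A^(K+K'+1) ((N + 1) log β + (N' + 1) log β')` (for all bases `β, β'`, all
lengths `L, L'` and all numbers of errors `K, K'`) holds for any two different numbers among
`e^(j x) ∫_0^∞ log(x/t)^l e^(-t) dt` and `e^(j x) ∫_0^∞ log(1 + s/x)^l e^(-s) ds`, `|j| ≤ n` (two numbers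
of the first kind are allowed only if the integral is not `0`).

**(2)** The first integral is `γ + log x` for `l = 1`, `(γ + log x)^2 + π^2 / 6` for `l = 2` and
`(γ + log x)^3 + (γ + log x) π^2 / 2 + 2 ζ(3)` for `l = 3`; the second one is
`∫_0^∞ e^(-s) / (x + s) ds` for `l = 1`.

**(3)** For every `r` and `n` there is `c > 0` such that for all bases `b ≥ 2`, all `K` and all `L`
at most one of the numbers `y = γ e^j, δ e^j`, `|j| ≤ n`, satisfies `N_b(y; r, K, L) + 1 < c^(K+1) L`. -/
theorem result :
    (∀ l : ℕ, 1 ≤ l → ∀ x : ℚ, 0 < x → ∀ r n : ℕ, ∃ A : ℝ, 1 ≤ A ∧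
      ∀ p q : Bool × ℤ, p ≠ q → |p.2| ≤ n → |q.2| ≤ n →
        (p.1 = true → q.1 = true → mom l x ≠ 0) → Bound A r (fam l x p) (fam l x q)) ∧
    (∀ x : ℝ, 0 < x → mom 1 x = Real.eulerMascheroniConstant + Real.log x ∧
      mom 2 x = (Real.eulerMascheroniConstant + Real.log x) ^ 2 + Real.pi ^ 2 / 6 ∧
      mom 3 x = (Real.eulerMascheroniConstant + Real.log x) ^ 3 +
        (Real.eulerMascheroniConstant + Real.log x) * Real.pi ^ 2 / 2 +
          2 * ∑' k : ℕ, 1 / ((k : ℝ) + 1) ^ 3 ∧
      gom 1 x = ∫ s in Set.Ioi (0 : ℝ), Real.exp (-s) / (x + s)) ∧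
    (∀ r n : ℕ, ∃ c : ℝ, 0 < c ∧ ∀ b : ℕ, 2 ≤ b → ∀ K L : ℕ, ∀ p q : Bool × ℤ,
      |p.2| ≤ n → |q.2| ≤ n →
      complexity b (num p) r K L + 1 < c ^ (K + 1) * L →
      complexity b (num q) r K L + 1 < c ^ (K + 1) * L → p = q) := by
  have part1 : ∀ l : ℕ, 1 ≤ l → ∀ x : ℚ, 0 < x → ∀ r n : ℕ, ∃ A : ℝ, 1 ≤ A ∧
      ∀ p q : Bool × ℤ, p ≠ q → |p.2| ≤ n → |q.2| ≤ n →
        (p.1 = true → q.1 = true → mom l x ≠ 0) → Bound A r (fam l x p) (fam l x q) := by
    intro l hl x hx r n
    -- the finite families
    have hfin : ∀ ι : Type, Finite ι → ∀ b : ι → Bool × ℤ, Function.Injective b →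
        (mom l x ≠ 0 ∨ ∀ i i', (b i).1 = true → (b i').1 = true → i = i') → ∃ A : ℝ, 1 ≤ A ∧
          ∀ i j, i ≠ j → Bound A r (fam l x (b i)) (fam l x (b j)) := by
      intro ι hι b hb h0
      exact Pool.Agent.R473.JC.family (fun i => fam l x (b i))
        (fun i j hij => Pool.Agent.N743.SS.joint_fam l hl x hx b hb h0 i j hij) r
    by_cases h0 : mom l x = 0
    · -- the numbers of the first kind are `0`; one of them at a time
      let J := {j : ℤ // |j| ≤ n}
      have hJ : Finite J := by
        have h1 : {j : ℤ | |j| ≤ n}.Finite := by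
          refine (Set.finite_Icc (-(n : ℤ)) n).subset fun j hj => ?_
          exact abs_le.1 hj
        exact h1.to_subtype
      let b : Option J → Bool × ℤ := fun o => o.elim (true, 0) (fun j => (false, j.1))
      have hb : Function.Injective b := by
        intro o o' h
        cases o with
        | none =>
          cases o' with
          | none => rfl
          | some j => exact absurd (congrArg Prod.fst h) (by simp [b])
        | some j =>
          cases o' with
          | none => exact absurd (congrArg Prod.fst h) (by simp [b])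
          | some j' =>
            have h2 : j.1 = j'.1 := congrArg Prod.snd h
            rw [Subtype.ext h2]
      obtain ⟨A, hA, h⟩ := hfin (Option J) inferInstance b hb (Or.inr (by
        intro i i' hi hi'
        cases i with
        | none =>
          cases i' with
          | none => rfl
          | some j => exact absurd hi' (by simp [b])
        | some j => exact absurd hi (by simp [b])))
      have hz : ∀ j : ℤ, fam l x (true, j) = fam l x (true, 0) := by
        intro j
        simp only [fam, if_true, h0, mul_zero]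
      have hrep : ∀ p : Bool × ℤ, |p.2| ≤ n → ∃ o, fam l x p = fam l x (b o) ∧
          (b o).1 = p.1 ∧ (p.1 = false → b o = p) := by
        rintro ⟨s, j⟩ hj
        cases s with
        | true => exact ⟨none, hz j, rfl, fun h => absurd h (by simp)⟩
        | false => exact ⟨some ⟨j, hj⟩, rfl, rfl, fun _ => rfl⟩
      refine ⟨A, hA, fun p q hpq hp hq hpq0 => ?_⟩
      obtain ⟨o, ho, ho1, ho2⟩ := hrep p hp
      obtain ⟨o', ho', ho1', ho2'⟩ := hrep q hq
      have hne : o ≠ o' := by
        rintro rfl
        cases hs : p.1 with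
        | true =>
          have hq1 : q.1 = true := by rw [← ho1', ho1, hs]
          exact hpq0 hs hq1 h0
        | false =>
          have hq1 : q.1 = false := by rw [← ho1', ho1, hs]
          exact hpq ((ho2 hs).symm.trans (ho2' hq1))
      rw [ho, ho']
      exact h o o' hne
    · let J := {p : Bool × ℤ // |p.2| ≤ n}
      have hJ : Finite J := by
        have h1 : {p : Bool × ℤ | |p.2| ≤ n}.Finite := by
          refine ((Set.finite_univ (α := Bool)).prod (Set.finite_Icc (-(n : ℤ)) n)).subset ?_
          intro p hp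
          exact ⟨Set.mem_univ _, abs_le.1 hp⟩
        exact h1.to_subtype
      obtain ⟨A, hA, h⟩ := hfin J hJ Subtype.val Subtype.val_injective (Or.inl h0)
      exact ⟨A, hA, fun p q hpq hp hq _ =>
        h ⟨p, hp⟩ ⟨q, hq⟩ (fun h => hpq (congrArg Subtype.val h))⟩
  refine ⟨part1, ?_, ?_⟩
  · intro x hx
    refine ⟨Pool.Agent.N743.SS.mom_one x, ?_, ?_, Pool.Agent.R352.E.dl_one hx⟩
    · have h := Pool.Agent.N743.SS.mom_eq 2 x
      rw [Pool.Agent.R352.E.NN_two] at h
      rw [show mom 2 x = Pool.Agent.N743.SS.mom 2 x from rfl, h]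
      ring
    · have h := Pool.Agent.N743.SS.mom_eq 3 x
      rw [Pool.Agent.R352.E.NN_three] at h
      rw [show mom 3 x = Pool.Agent.N743.SS.mom 3 x from rfl, h, Pool.Agent.R352.E.zeta3]
      ring
  · intro r n
    obtain ⟨A, hA, h⟩ := part1 1 le_rfl 1 one_pos r n
    have hγ : mom 1 ((1 : ℚ) : ℝ) ≠ 0 := by
      rw [Rat.cast_one, mom_one]
      have := Real.one_half_lt_eulerMascheroniConstant
      linarith
    refine ⟨1 / A ^ 2 / 2, by positivity, fun b hb K L p q hp hq h1 h2 => ?_⟩
    by_contra hpq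
    have h3 := h p q hpq hp hq (fun _ _ => hγ)
    rw [Rat.cast_one, ← num_eq, ← num_eq] at h3
    exact at_most_one _ _ A hA r h3 b hb K L h1 h2

end Pool.Agent.Results.MP_e48a95_nt.JointDigitsEuler
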