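import Mathlib
import Pool.Agent.R473.JC.Final
import Pool.Agent.Run7.h168.Z3.Mono

/-!
# The digits of the numbers `ζ(3)^i π^j`

`S(X) = s_1 X + ⋯ + s_L X^L`, where the `s_i` are the digits of a real number `y` in base `b` after
at most `K` of them have been changed.  The `K`-error algebraic complexity `N_b(y) = N_b(y; r, K, L)`
is the least `k` such that `X^(L+1)` divides `P(X, S(X))` for some nonzero polynomial `P(X, Y)` of
degree at most `r` in `Y` and at most `k` in `X` and some such choice of `S`; for `r = 1` this is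
essentially the linear complexity.

For every `r` and `n` there is `c > 0` such that in every base `b`, for all `K` and all `L`, those
of the numbers `y = ζ(3)^i π^j`, `|i|, |j| ≤ n`, which satisfy `N_b(y) + 1 < c^(K+1) L` have exponents
`(i, j)` on one line through the origin.  In particular
`N_b(ζ(3)) + N_b(ζ(3)/π³) + 2 ≥ c^(K+1) L`.  The same is proved for all monomials `z^i x^j`, where `x`
is `e`, `π` or the logarithm of a positive rational number different from `1` and `z` is any real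
number different from `0`, and the two monomials may be read in different bases, with different
lengths and different numbers of errors.

Proof.  A relation for the digits of `u` gives an integer polynomial `P` of degree at most `r` with
small coefficients and a very small value `P(u)` (Siegel's lemma); the last changed digit is bounded
by induction (`Pool.Agent.R473.JC`).  If `(i, j)` and `(k, l)` are not proportional then `x` is
algebraic over `ℤ[u, v]`, `u = z^i x^j`, `v = z^k x^l`, and `P(u)`, `Q(v)` cannot both be very small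
(`Pool.Agent.R356.joint`, which uses the transcendence measure of `x`).
-/

set_option autoImplicit false

namespace Pool.Agent.Results.MP_e48a95_nt.MonomialDigitsZetaThree

open Finset Polynomial Module

/-- the `i`-th digit of `x` after the point in base `b` -/
noncomputable def digit (b : ℕ) (x : ℝ) (i : ℕ) : ℤ := ⌊x * (b : ℝ) ^ i⌋ % (b : ℤ)

/-- the polynomial `s_1 X + s_2 X^2 + ⋯ + s_L X^L` -/
noncomputable def seqPoly (s : ℕ → ℤ) (L : ℕ) : ℚ[X] := ∑ l ∈ Icc 1 L, C (s l : ℚ) * X ^ l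

/-- `s` is a sequence of base `b` digits, and among the places `1, …, L` at most `K` are such that
`s_l` is not the `l`-th digit of `x` -/
def Near (b : ℕ) (x : ℝ) (K L : ℕ) (s : ℕ → ℤ) : Prop :=
  (∀ l, 0 ≤ s l ∧ s l < b) ∧ {l : ℕ | 1 ≤ l ∧ l ≤ L ∧ s l ≠ digit b x l}.ncard ≤ K

/-- there is a nonzero polynomial `P(X, Y)` over `ℚ` of degree `≤ r` in `Y` and `≤ k` in `X` such
that `P(X, S(X))` is divisible by `X^(L+1)`, where `S` is the polynomial of the first `L` terms
of `s` -/
def AlgRelation (s : ℕ → ℤ) (r L k : ℕ) : Prop :=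
  ∃ P : ℚ[X][X], P ≠ 0 ∧ P.natDegree ≤ r ∧ (∀ j, (P.coeff j).natDegree ≤ k) ∧
    X ^ (L + 1) ∣ P.eval (seqPoly s L)

/-- the `K`-error algebraic complexity of degree `r` of the first `L` digits of `x` in base `b`: the
least `k` such that after the change of at most `K` of the digits there is a relation with
coefficients of degree at most `k` -/
noncomputable def complexity (b : ℕ) (x : ℝ) (r K L : ℕ) : ℕ :=
  sInf {k : ℕ | ∃ s, Near b x K L s ∧ AlgRelation s r L k}

/-- the joint lower bound for `u` and `v` in degree `r`, with the constant `A`, in all pairs of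
bases, for all lengths and all numbers of errors -/
def Bound (A : ℝ) (r : ℕ) (u v : ℝ) : Prop :=
  ∀ b b' : ℕ, 2 ≤ b → 2 ≤ b' → ∀ K K' L L' : ℕ,
    min (L * Real.log b) (L' * Real.log b') ≤
      A ^ (K + K' + 1) * ((complexity b u r K L + 1) * Real.log b +
        (complexity b' v r K' L' + 1) * Real.log b')

/-- `ζ(3)` -/
noncomputable def zeta3 : ℝ := ∑' k : ℕ, 1 / ((k : ℝ) + 1) ^ 3

/-- the case of one base, one length and one number of errors -/
lemma one_base (u v A : ℝ) (hA : 1 ≤ A) (r : ℕ) (h : Bound A r u v) (b : ℕ) (hb : 2 ≤ b)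
    (K L : ℕ) : (1 / A ^ 2) ^ (K + 1) * (L : ℝ) ≤
      complexity b u r K L + complexity b v r K L + 2 := by
  have hl : 0 < Real.log b := Real.log_pos (by exact_mod_cast (by omega : 1 < b))
  have hA0 : 0 < A := by linarith
  have h1 := h b b hb hb K K L L
  rw [min_self] at h1
  have h2 : (L : ℝ) ≤ A ^ (K + K + 1) * (complexity b u r K L + complexity b v r K L + 2) := by
    have h3 : (L : ℝ) * Real.log b ≤
        (A ^ (K + K + 1) * (complexity b u r K L + complexity b v r K L + 2)) * Real.log b := by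
      linarith
    exact le_of_mul_le_mul_right h3 hl
  have h4 : A ^ (K + K + 1) ≤ (A ^ 2) ^ (K + 1) := by
    rw [← pow_mul]
    exact pow_le_pow_right₀ hA (by omega)
  rw [div_pow, one_pow, div_mul_eq_mul_div, one_mul, div_le_iff₀ (by positivity)]
  calc (L : ℝ) ≤ A ^ (K + K + 1) * (complexity b u r K L + complexity b v r K L + 2) := h2
    _ ≤ (A ^ 2) ^ (K + 1) * (complexity b u r K L + complexity b v r K L + 2) :=
        mul_le_mul_of_nonneg_right h4 (by positivity)
    _ = _ := by ring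

lemma half_pow (A : ℝ) (hA : 1 ≤ A) (K : ℕ) : (1 / A ^ 2 / 2) ^ (K + 1) ≤ (1 / A ^ 2) ^ (K + 1) / 2 := by
  have hA0 : 0 < A := by linarith
  rw [div_pow (1 / A ^ 2) 2]
  refine div_le_div_of_nonneg_left (by positivity) (by norm_num) ?_
  calc (2 : ℝ) = 2 ^ 1 := by norm_num
    _ ≤ 2 ^ (K + 1) := pow_le_pow_right₀ (by norm_num) (by omega)

lemma finite_box (n : ℕ) : Finite {p : ℤ × ℤ // |p.1| ≤ n ∧ |p.2| ≤ n} := by
  have h1 : {p : ℤ × ℤ | |p.1| ≤ n ∧ |p.2| ≤ n}.Finite := by
    refine ((Set.finite_Icc (-(n : ℤ)) n).prod (Set.finite_Icc (-(n : ℤ)) n)).subset ?_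
    intro p hp
    exact ⟨abs_le.1 hp.1, abs_le.1 hp.2⟩
  exact h1.to_subtype

/-- a finite family of numbers in which some pairs satisfy the joint bound -/
lemma family {ι : Type} [Finite ι] (y : ι → ℝ) (R : ι → ι → Prop)
    (hR : ∀ i j, R i j → Pool.Agent.R356.JointR (y i) (y j)) (r : ℕ) :
    ∃ A : ℝ, 1 ≤ A ∧ ∀ i j, R i j → Bound A r (y i) (y j) := by
  classical
  haveI := Fintype.ofFinite ι
  have h1 : ∀ p : ι × ι, ∃ A : ℝ, 1 ≤ A ∧ (R p.1 p.2 → Bound A r (y p.1) (y p.2)) := by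
    intro p
    by_cases hp : R p.1 p.2
    · obtain ⟨A, hA, h⟩ := Pool.Agent.R473.JC.pair (y p.1) (y p.2) (hR _ _ hp) r
      exact ⟨A, hA, fun _ => h⟩
    · exact ⟨1, le_rfl, fun h => absurd h hp⟩
  choose A hA h using h1
  have hA0 : ∀ p, 0 ≤ A p := fun p => by linarith [hA p]
  refine ⟨1 + ∑ p, A p, ?_, ?_⟩
  · have := Finset.sum_nonneg fun p (_ : p ∈ (Finset.univ : Finset (ι × ι))) => hA0 p
    linarith
  · intro i j hij b b' hb hb' K K' L L'
    refine (h (i, j) hij b b' hb hb' K K' L L').trans ?_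
    have hb0 : 0 ≤ Real.log b := Real.log_nonneg (by exact_mod_cast (by omega : 1 ≤ b))
    have hb0' : 0 ≤ Real.log b' := Real.log_nonneg (by exact_mod_cast (by omega : 1 ≤ b'))
    refine mul_le_mul_of_nonneg_right (pow_le_pow_left₀ (hA0 _) ?_ _) (by positivity)
    have := Finset.single_le_sum (fun p (_ : p ∈ (Finset.univ : Finset (ι × ι))) => hA0 p)
      (Finset.mem_univ (i, j))
    linarith

lemma zeta3_pos : 0 < zeta3 := by
  have hs : Summable (fun k : ℕ => 1 / ((k : ℝ) + 1) ^ 3) := by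
    have := (summable_nat_add_iff 1).2 (Real.summable_one_div_nat_pow.2 (show 1 < 3 by norm_num))
    refine this.congr fun n => ?_
    push_cast
    rfl
  exact hs.tsum_pos (fun k => by positivity) 0 (by norm_num)

/-- **(1)** Let `x` be `e`, `π` or the logarithm of a positive rational number different from `1`,
and let `z ≠ 0` be a real number.  For every `r` and `n` there is `A ≥ 1` such that for all exponents
`|i|, |j|, |k|, |l| ≤ n` with `i l ≠ j k` the joint lower bound
`min (L log β, L' log β') ≤ A^(K+K'+1) ((N + 1) log β + (N' + 1) log β')` holds for `z^i x^j` and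
`z^k x^l`, for all bases `β, β'`, all lengths `L, L'` and all numbers of errors `K, K'`.

**(2)** For every `r` and `n` there is `c > 0` such that for all bases `b ≥ 2`, all `K` and all `L`: if
`|i|, |j|, |k|, |l| ≤ n` and each of the two numbers `y = ζ(3)^i π^j, ζ(3)^k π^l` satisfies
`N_b(y; r, K, L) + 1 < c^(K+1) L`, then `i l = j k`.

**(3)** For every `r` there is `c > 0` such that for all bases `b ≥ 2`, all `K` and all `L`
`c^(K+1) L ≤ N_b(ζ(3); r, K, L) + N_b(ζ(3) π^(-3); r, K, L) + 2`. -/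
theorem result :
    (∀ x : ℝ, (x = Real.exp 1 ∨ x = Real.pi ∨ ∃ q : ℚ, 0 < q ∧ q ≠ 1 ∧ x = Real.log q) →
      ∀ z : ℝ, z ≠ 0 → ∀ r n : ℕ, ∃ A : ℝ, 1 ≤ A ∧ ∀ i j k l : ℤ,
        |i| ≤ n → |j| ≤ n → |k| ≤ n → |l| ≤ n → i * l ≠ j * k →
          Bound A r (z ^ i * x ^ j) (z ^ k * x ^ l)) ∧
    (∀ r n : ℕ, ∃ c : ℝ, 0 < c ∧ ∀ b : ℕ, 2 ≤ b → ∀ K L : ℕ, ∀ i j k l : ℤ,
      |i| ≤ n → |j| ≤ n → |k| ≤ n → |l| ≤ n →
      complexity b (zeta3 ^ i * Real.pi ^ j) r K L + 1 < c ^ (K + 1) * L →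
      complexity b (zeta3 ^ k * Real.pi ^ l) r K L + 1 < c ^ (K + 1) * L → i * l = j * k) ∧
    (∀ r : ℕ, ∃ c : ℝ, 0 < c ∧ ∀ b : ℕ, 2 ≤ b → ∀ K L : ℕ,
      c ^ (K + 1) * L ≤ complexity b zeta3 r K L +
        complexity b (zeta3 * Real.pi ^ (-3 : ℤ)) r K L + 2) := by
  have part1 : ∀ x : ℝ, (x = Real.exp 1 ∨ x = Real.pi ∨ ∃ q : ℚ, 0 < q ∧ q ≠ 1 ∧ x = Real.log q) →
      ∀ z : ℝ, z ≠ 0 → ∀ r n : ℕ, ∃ A : ℝ, 1 ≤ A ∧ ∀ i j k l : ℤ,
        |i| ≤ n → |j| ≤ n → |k| ≤ n → |l| ≤ n → i * l ≠ j * k →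
          Bound A r (z ^ i * x ^ j) (z ^ k * x ^ l) := by
    intro x hx z hz r n
    haveI := finite_box n
    obtain ⟨A, hA, h⟩ := family (ι := {p : ℤ × ℤ // |p.1| ≤ n ∧ |p.2| ≤ n})
      (fun p => z ^ p.1.1 * x ^ p.1.2) (fun p q => p.1.1 * q.1.2 ≠ p.1.2 * q.1.1)
      (fun p q hpq => Run7.h168.Z3.joint_mono x z (Pool.Agent.R473.JC.measT_three x hx) hz _ _ _ _
        (sub_ne_zero.2 hpq)) r
    exact ⟨A, hA, fun i j k l hi hj hk hl hne => h ⟨(i, j), hi, hj⟩ ⟨(k, l), hk, hl⟩ hne⟩
  have hpi : Real.pi = Real.exp 1 ∨ Real.pi = Real.pi ∨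
      ∃ q : ℚ, 0 < q ∧ q ≠ 1 ∧ Real.pi = Real.log q := Or.inr (Or.inl rfl)
  refine ⟨part1, fun r n => ?_, fun r => ?_⟩
  · obtain ⟨A, hA, h⟩ := part1 Real.pi hpi zeta3 zeta3_pos.ne' r n
    have hA0 : 0 < A := by linarith
    refine ⟨1 / A ^ 2 / 2, by positivity, fun b hb K L i j k l hi hj hk hl h1 h2 => ?_⟩
    by_contra hne
    have h3 := one_base _ _ A hA r (h i j k l hi hj hk hl hne) b hb K L
    have h5 : (1 / A ^ 2 / 2) ^ (K + 1) * (L : ℝ) ≤ (1 / A ^ 2) ^ (K + 1) / 2 * L :=
      mul_le_mul_of_nonneg_right (half_pow A hA K) (Nat.cast_nonneg L)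
    linarith
  · obtain ⟨A, hA, h⟩ := part1 Real.pi hpi zeta3 zeta3_pos.ne' r 3
    have hA0 : 0 < A := by linarith
    refine ⟨1 / A ^ 2, by positivity, fun b hb K L => ?_⟩
    have h3 := h 1 0 1 (-3) (by norm_num) (by norm_num) (by norm_num) (by norm_num) (by norm_num)
    rw [zpow_one, zpow_zero, mul_one] at h3
    exact one_base _ _ A hA r h3 b hb K L

end Pool.Agent.Results.MP_e48a95_nt.MonomialDigitsZetaThree
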